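import Pool.Agent.Helper42.PW.Goals4
import Pool.Agent.Helper11.R.Goals

/-!
# Project W (MP_fc6b1e_nt): the moment theorem for `χ₀ ≠ 1` with the other exceptional type excluded
-/

set_option autoImplicit false

namespace Pool.Agent.Helper77.PW

open NumberField Polynomial Module IsDedekindDomain
open Pool.Agent.Helper51.RP Pool.Agent.Helper42.RD Pool.Agent.Helper42.PP Pool.Agent.Helper42.PP1
open Pool.Agent.Helper42.PB Pool.Agent.Helper11.PP Pool.Agent.Helper42.PW
open Pool.Agent.Helper51.SigLeo (IwasawaLog)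
open Pool.Agent.Helper11.R (NTV2)

/-- **MOMRV**: the moment theorem for `χ₀ ≠ 1` and `NTV2`, for all families of characters of order `p` given by local
conditions (compare `Helper77.PPB.MOMRN`). -/
def MOMRV : Prop :=
  ∀ (p : ℕ) [Fact p.Prime] (L : IwasawaLog p ℂ_[p]) (K M K₁ M₁ J M₂ : Type) [Field K]
    [NumberField K] [IsTotallyComplex K] [Field M] [NumberField M] [Field K₁] [NumberField K₁]
    [Field M₁] [NumberField M₁] [Field J] [NumberField J] [Field M₂] [NumberField M₂] [Algebra K M]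
    [Algebra K K₁] [Algebra K M₁] [Algebra M M₁] [Algebra K₁ M₁] [Algebra K J] [Algebra K M₂]
    [Algebra M M₂] [Algebra K₁ M₂] [Algebra M₁ M₂] [Algebra J M₂] (ε : K₁) (δ : M ≃ₐ[K] M)
    (P : (ZMod p)[X]) (a₀ : M₂ˣ), SitX p K M K₁ M₁ J M₂ ε δ P a₀ → NTV2 p M₁ ε δ P →
  ∀ (m : ℕ) (ζ : ℂ_[p]) (Φ : ℤ_[p][X]), PhiData p m ζ Φ P → finrank K M = m → TorOK P δ →
  ∀ T : Set (K →+* ℂ_[p]), PlaceClosed T → finrank ℚ K = 2 * T.ncard →
  MomA p K ε (BdW L T P δ a₀) (1 / ((p : ℝ) ^ P.natDegree - 1))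

end Pool.Agent.Helper77.PW
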