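import Pool.Agent.Helper38.FW.ASMG
import Pool.Agent.Helper42.PW.Cls0
import Pool.Agent.Helper77.PPB.BDEN
import Pool.Agent.Helper77.PW.Goals

/-!
# Project W (MP_fc6b1e_nt): the density theorem for all characters of order `p`, general weights
-/

set_option autoImplicit false

namespace Pool.Agent.Helper77.PW

open NumberField Polynomial Module IsDedekindDomain TensorProduct Pool.Agent.Helper51.SigLeo
open Pool.Agent.Helper51.RP Pool.Agent.Helper42.RD Pool.Agent.Helper11.LE Pool.Agent.Helper11.PP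
open Pool.Agent.Helper42.PP Pool.Agent.Helper42.PP1 Pool.Agent.Helper42.PB Pool.Agent.Helper42.PW
open Pool.Agent.Helper38.FD (Chr CutsOut LeopoldtFor IsOrdinary isGalois_of_cutsOut)
open Pool.Agent.Helper77.PPB
open Pool.Agent.Helper11.R (NTV2)
open Pool.Agent.Helper38.FW (GoodV W_DENG G_WT G_ASM asmG momA_mono)

theorem w_deng (hMB : MOMBV) (hMB1 : MOMB1V) (hMR : MOMRV)
    (hKU : Pool.Agent.Helper42.PW.W_KUM) (hDEC : Pool.Agent.Helper42.PW.W_DEC)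
    (hSW : B_SWT) (hNT : B_NTV) (hNT2 : B_NTV2) (h3 : B_KU3) (hG1 : W_GL1) (hG0 : W_GL0)
    (hMAP : D_MAP) (hCHR : B_CHR) (hLDT : W_LDT) (hPRO : W_PRO) (hWT : G_WT) (hASM : G_ASM)
    (hPH : S_PHI) (hNS : S_NSP) (hFR : Pool.Agent.Helper76.RD.E_FRB) : W_DENG := by
  classical
  intro p hpF K _ _ ιinf ιp Lg ι hι n c S M F₀ χ₀ ψ₀ hCM hord hfM hχ hcop hω hψ hF hdec hc
    θ hθ hcase A hA hT e he
  have hp : p.Prime := hpF.out
  obtain ⟨i₀⟩ := id hι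
  have htc : IsTotallyComplex K := Pool.Agent.Helper35.RD.totallyComplex_of_cm (hCM i₀)
  have hcl : ∀ i, PlaceClosed (TSet ιinf ιp (S i)) := fun i =>
    Pool.Agent.Helper35.RD.tset_closed ιinf ιp (S i) (hord i)
  have hcard : ∀ i, finrank ℚ K = 2 * (TSet ιinf ιp (S i)).ncard := fun i => by
    rw [Pool.Agent.Helper35.RD.tset_ncard, Pool.Agent.Helper35.RD.two_mul_ncard_cm (hCM i)]
  have hrk : ∀ i, Units.rank K + 1 ≤ (TSet ιinf ιp (S i)).ncard := fun i ↦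
    Pool.Agent.Helper32.LE.rank_cm ιinf ιp (S i) (hCM i)
  have hp0 : (0 : ℝ) < p := by exact_mod_cast hp.pos
  have hp1 : (1 : ℝ) < p := by exact_mod_cast hp.one_lt
  refine asmG hMAP hCHR hLDT hPRO hWT hASM p K ιinf ιp Lg ι n c S M F₀ χ₀ ψ₀ hfM hχ hcop hψ hF hc
    θ hθ ?_ A hA hT e he
  intro K₁ _ ε ε₁ εk nf cf hε hK₁ hε₁ hC hεk n1 n5 i
  rcases hcase i with ⟨hM, hle⟩ | ⟨hM, hor, hle⟩ | ⟨hM, hsd, hle⟩
  · -- `χ₀ = 1`
    have hχ1 : χ₀ i = 1 := by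
      ext g
      have h1 : χ₀ i g = 1 := by
        rw [(hχ i) g, hM]
        intro x hx
        obtain ⟨y, rfl⟩ := IntermediateField.mem_bot.1 hx
        exact g.commutes y
      rw [h1]
      rfl
    have hμ := no_root hχ1 (hω i)
    obtain ⟨Bd, hBd, hgd⟩ := w_cls0 hKU hDEC h3 hG0 p K ιinf ιp Lg hμ K₁ ε₁ hC εk hεk nf cf n1 n5
      (S i) (hcl i) (F₀ i) (ψ₀ i) (hψ i) (hF i) (hdec i)
      (fun Bd => MomA p K ε₁ Bd (θ (c i))) (by
        intro J M₂ _ _ _ _ a₀ hB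
        refine momA_mono ?_
          (hMB1 p Lg K K₁ J M₂ ε₁ a₀ hB hμ (TSet ιinf ιp (S i)) (hcl i) (hrk i))
        refine le_trans ?_ hle
        have h9 : (p : ℝ) ^ (Units.rank K + 1) ≤ (p : ℝ) ^ (TSet ιinf ιp (S i)).ncard :=
          pow_le_pow_right₀ hp1.le (hrk i)
        rw [div_le_div_iff₀ (mul_pos (pow_pos hp0 _) (by linarith)) (by linarith), one_mul]
        exact mul_le_mul_of_nonneg_right h9 (by linarith))
    refine ⟨Bd, hBd, fun c' hc' hv hcB hD l => ?_⟩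
    have h4 : χ₀ i ^ p ^ l = 1 := by
      rw [hχ1]
      ext g
      rw [MonoidHom.pow_apply, MonoidHom.one_apply, one_pow]
    rw [h4, hM]
    rw [hχ1] at hD
    exact hgd c' hc' hv hcB hD
  · -- `χ₀ ≠ 1`, (b)
    have := hfM i
    refine w_cls1 hKU hDEC hSW hNT h3 hG1 hPH hNS hFR p K ιinf ιp Lg K₁ ε hε hK₁ ε₁ hε₁ εk hεk
      nf cf n1 n5 (S i) (hcl i) (M i) (F₀ i) (χ₀ i) (ψ₀ i) (hχ i) (hcop i) (hω i) hM (hψ i) (hF i)
      (hdec i) (fun Bd => MomA p K ε₁ Bd (θ (c i))) ?_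
    intro M₁ J M₂ _ _ _ _ _ _ _ _ _ _ _ χM δ Φ P a₀ _ hb
    have hfM₂ : FiniteDimensional K M₂ := Module.Finite.of_restrictScalars_finite ℚ K M₂
    have hlt : 1 < finrank K₁ M₂ := by
      refine one_lt_deg (M := M i) hb.w2 hb.leM hb.leK hb.eq2 hb.copK hb.degJ ?_
      rcases hor with h | h
      · exact Or.inr (hb.neJ h)
      · left; rw [hK₁]; exact h ε hε
    refine momA_mono ?_ (hMB p Lg K (M i) K₁ M₁ J M₂ ε₁ δ P a₀ hb.sit hb.ntv hlt _ _ Φ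
      hb.phi rfl hb.tor (TSet ιinf ιp (S i)) (hcl i) (hcard i))
    rw [Pool.Agent.Helper77.PPL.phi_deg hb.phi]
    exact hle
  · -- `χ₀ ≠ 1`, (c)
    have := hfM i
    refine w_cls1 hKU hDEC hSW hNT h3 hG1 hPH hNS hFR p K ιinf ιp Lg K₁ ε hε hK₁ ε₁ hε₁ εk hεk
      nf cf n1 n5 (S i) (hcl i) (M i) (F₀ i) (χ₀ i) (ψ₀ i) (hχ i) (hcop i) (hω i) hM (hψ i) (hF i)
      (hdec i) (fun Bd => MomA p K ε₁ Bd (θ (c i))) ?_
    intro M₁ J M₂ _ _ _ _ _ _ _ _ _ _ _ χM δ Φ P a₀ hχM hb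
    have hntv2 := hNT2 p K (M i) K₁ M₁ hb.v1 hb.v2 ε₁ δ P hb.sit.sit χM Φ hb.ord hb.phi (by
      obtain ⟨g, r, h4, h5⟩ := hω i
      exact ⟨g, r, h4, by rw [← hχM g]; exact h5⟩) (by
      intro j
      obtain ⟨g, r, h4, h5⟩ := hsd j
      exact ⟨g, r, h4, by rw [← hχM g]; exact h5⟩)
    refine momA_mono ?_ (hMR p Lg K (M i) K₁ M₁ J M₂ ε₁ δ P a₀ hb.sit hntv2 _ _ Φ
      hb.phi rfl hb.tor (TSet ιinf ιp (S i)) (hcl i) (hcard i))
    rw [Pool.Agent.Helper77.PPL.phi_deg hb.phi]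
    exact hle

end Pool.Agent.Helper77.PW
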