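import Pool.Agent.Helper77.PW.AsmR
import Pool.Agent.Helper38.FW.Mom

/-!
# Project W (MP_fc6b1e_nt): `W_DENG`, without hypotheses
-/

set_option autoImplicit false

namespace Pool.Agent.Helper77.PW

open Pool.Agent.Helper38.FW (W_DENG)

/-- The density theorem for all characters of order `p`, general weights. -/
theorem a_deng : W_DENG := a_dengR Pool.Agent.Helper38.FW.v_momrv

end Pool.Agent.Helper77.PW
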