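import Pool.Agent.Helper77.PW.DENG
import Pool.Agent.Helper77.PPB.Asm2
import Pool.Agent.Helper42.PW.Asm1
import Pool.Agent.Helper5.PW.WPRO
import Pool.Agent.Helper13.PW.WAPX
import Pool.Agent.Helper14.PW.WLDT
import Pool.Agent.Helper30.PW.WDEC
import Pool.Agent.Helper32.PW.WSHF
import Pool.Agent.Helper91.PPB.BNTV2

/-!
# Project W (MP_fc6b1e_nt): `W_DENG` from `MOMRV`
-/

set_option autoImplicit false

namespace Pool.Agent.Helper77.PW

open Pool.Agent.Helper38.FW (W_DENG)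

theorem x_apx : Pool.Agent.Helper42.PW.W_APX :=
  Pool.Agent.Helper13.PW.w_apx Pool.Agent.Helper42.PW.n_trn Pool.Agent.Helper42.PW.a_grp

theorem x_kumW : Pool.Agent.Helper42.PW.W_KUM :=
  Pool.Agent.Helper42.PW.w_kum Pool.Agent.Helper96.PPB.b_ku1 Pool.Agent.Helper56.PPB.b_ku4
    Pool.Agent.Helper98.PPB.b_ku5

/-- The density theorem for all characters of order `p`, from `MOMRV`. -/
theorem a_dengR (hMR : MOMRV) : W_DENG :=
  w_deng (Pool.Agent.Helper42.PW.a_mombv x_apx Pool.Agent.Helper32.PW.w_shf)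
    (Pool.Agent.Helper42.PW.a_momb1v x_apx Pool.Agent.Helper32.PW.w_shf) hMR x_kumW
    Pool.Agent.Helper30.PW.w_dec Pool.Agent.Helper74.PPB.b_swt Pool.Agent.Helper58.PPB.b_ntv
    Pool.Agent.Helper91.PPB.b_ntv2 Pool.Agent.Helper82.PPB.b_ku3 Pool.Agent.Helper42.PW.a_gl1
    Pool.Agent.Helper42.PW.a_gl0 Pool.Agent.Helper77.PPL.d_map Pool.Agent.Helper39.PPB.b_chr
    Pool.Agent.Helper14.PW.w_ldt Pool.Agent.Helper5.PW.w_pro Pool.Agent.Helper32.FW.g_wt
    Pool.Agent.Helper49.FW.g_asm Pool.Agent.Helper22.RP.s_phi Pool.Agent.Helper11.RP.s_nsp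
    Pool.Agent.Helper20.RD.e_frb

end Pool.Agent.Helper77.PW
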